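import Pool.Agent.H81.GT.AllX
import Pool.Agent.H82.G4.REC4

/-!
Theorem G (MP_ee74d2_an), group G4, FIN34: Q1 for `d = 3` and `d = 4` from the main estimate.
-/

set_option autoImplicit false

namespace Pool.Agent.H81.G4

open MeasureTheory Set
open Pool.Agent.H81.GT (MAINx SEC RES BLA Q1at T_GL2)
open Pool.Agent.H82.G4 (T_MAIN4 T_TEN43 T_TEN42 TENq)

/-- the level set estimate from `MAIN4` -/
theorem main_of_ten (hM : T_MAIN4) {m : ℕ} {x : ℝ} (hm : 1 ≤ m) (hx : 0 < x)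
    (h1 : 2 + x / 2 < m * x) (h2 : m * x < 4) (hT : ∀ L : ℕ, TENq m L x) : MAINx m x := by
  intro ε hε
  obtain ⟨C, hC, h⟩ := hM m (2 * m + 6) x ε hm hx h1 h2 (hT _) le_rfl hε
  refine ⟨2 * m + 6, C, le_rfl, hC, fun R hR => ?_⟩
  have hR0 : 0 < R := by linarith
  exact Pool.Agent.H82.G4.REC4.bdx_of_bds hx hR0.le (by positivity) (h R hR)

theorem main_3 (hM : T_MAIN4) (hT : T_TEN43) : MAINx 3 (8 / 9) :=
  main_of_ten hM (by norm_num) (by norm_num) (by norm_num) (by norm_num) hT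

theorem main_2 (hM : T_MAIN4) (hT : T_TEN42) {x : ℝ} (h1 : 4 / 3 < x) (h2 : x < 2) :
    MAINx 2 x :=
  main_of_ten hM (by norm_num) (by linarith) (by push_cast; linarith) (by push_cast; linarith)
    fun L => hT L x h1.le h2.le

section

variable (hGL2 : T_GL2) (hSPK : Pool.Agent.H83.G.T_SPK) (hPUX : Pool.Agent.H83.G.T_PUX)
    (hSCH : Pool.Agent.H83.G.T_SCH) (hWM : Pool.Agent.H83.G.T_WM)
    (hAVG : Pool.Agent.H83.G.T_AVG) (hLOA : Pool.Agent.H83.G.T_LOA)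
    (hLOB : Pool.Agent.H83.G.T_LOB)

include hGL2 hSPK hPUX hSCH hWM hAVG hLOA hLOB

/-- Q1 for `d = 4`, `p ≥ 26/9` -/
theorem q1at_3 (hM : T_MAIN4) (hT : T_TEN43) {p : ℝ} (hp : 26 / 9 ≤ p) : Q1at 3 p :=
  Pool.Agent.H81.GT.all_q1x hGL2 hSPK hPUX hSCH hWM hAVG hLOA hLOB (by norm_num) (by norm_num)
    (main_3 hM hT) (by linarith)

/-- Q1 for `d = 3`, `p ≥ 10/3` -/
theorem q1at_2 (hM : T_MAIN4) (hT : T_TEN42) {p : ℝ} (hp : 10 / 3 ≤ p) : Q1at 2 p := by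
  have h1 : RES 2 (10 / 3) := by
    refine Pool.Agent.H81.GT.res_of_sec (κ := 1 / 8) (by norm_num) (by norm_num) fun q hq => ?_
    obtain ⟨x, hx1, hx2, hx3⟩ : ∃ x : ℝ, 4 / 3 < x ∧ x < 2 ∧ 2 + x < q := by
      have : (4 / 3 : ℝ) < min 2 (q - 2) := lt_min (by norm_num) (by linarith)
      obtain ⟨x, h1, h2⟩ := exists_between this
      exact ⟨x, h1, h2.trans_le (min_le_left _ _), by
        have := h2.trans_le (min_le_right _ _)
        linarith⟩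
    exact Pool.Agent.H81.GT.all_secx hGL2 hSPK hPUX hSCH hWM hAVG hLOA hLOB (by norm_num)
      (by linarith) (main_2 hM hT hx1 hx2) hx3
  have h2 : BLA 2 p := Pool.Agent.H81.GT.bla_of_res2 Pool.Agent.H83.LS.Chain.marc
    Pool.Agent.H83.LS.Chain.ple le_rfl (by norm_num) hp h1
  exact Pool.Agent.H81.GT.q1_of_bla Pool.Agent.H83.LS.Chain.radl Pool.Agent.H83.LS.Chain.lowf
    Pool.Agent.H83.LS.Chain.yg Pool.Agent.H83.LS.Chain.ple le_rfl (by linarith) h2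

end

end Pool.Agent.H81.G4
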