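import Pool.Agent.H81.G4.FIN34
import Pool.Agent.H83.G.Final
import Pool.Agent.H82.G4.Chain4

/-!
Theorem G (MP_ee74d2_an): Q1 for all data, `p ≥ 2 + 8/(3 n)`, `n = d - 1`, for `d ≥ 4`, `d ≥ 3`.
-/

set_option autoImplicit false

namespace Pool.Agent.H81.G4

open Pool.Agent.H83.G.Chain (m_SPK m_PUX m_SCH m_WM m_AVG m_LOA m_LOB)
open Pool.Agent.H82.G4 (T_MAIN4 T_TEN43 T_TEN42)

/-- Q1 for `d ≥ 4` -/
theorem q1_ge4 (hM : T_MAIN4) {n : ℕ} (hn : 3 ≤ n) {p : ℝ} (hp : 2 + 8 / (3 * (n : ℝ)) ≤ p) :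
    Pool.Agent.H81.GT.Q1at n p := by
  rcases eq_or_lt_of_le hn with h | h
  · subst h
    have hp' : 26 / 9 ≤ p := by norm_num at hp; linarith
    exact q1at_3 Pool.Agent.H83.G.Final.gl2 m_SPK m_PUX m_SCH m_WM m_AVG m_LOA m_LOB hM
      Pool.Agent.H82.G4.Chain.k_TEN43 hp'
  · exact Pool.Agent.H83.G.Final.q1 (by omega) hp

/-- Q1 for `d ≥ 3` -/
theorem q1_ge3 (hM : T_MAIN4) (hT : T_TEN42) {n : ℕ} (hn : 2 ≤ n) {p : ℝ}
    (hp : 2 + 8 / (3 * (n : ℝ)) ≤ p) : Pool.Agent.H81.GT.Q1at n p := by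
  rcases eq_or_lt_of_le hn with h | h
  · subst h
    have hp' : 10 / 3 ≤ p := by norm_num at hp; linarith
    exact q1at_2 Pool.Agent.H83.G.Final.gl2 m_SPK m_PUX m_SCH m_WM m_AVG m_LOA m_LOB hM hT hp'
  · exact q1_ge4 hM (by omega) hp

end Pool.Agent.H81.G4
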